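import Pool.Agent.Lib.UCS.Hrm

/-!
# UCR: comparison with the series of the primes
-/

set_option autoImplicit false

open Filter Topology Finset

namespace Pool.Agent.Lib.UCR

open Pool.Agent.Lib.UCX
open Pool.Agent.Lib.UCW
open Pool.Agent.Lib.UCS (cast_tsum)

private theorem nn {Y : Type} (v : Y → ℕ) (s : ℝ) (y : Y) : 0 ≤ ((v y + 1 : ℕ) : ℝ) ^ (-s) :=
  Real.rpow_nonneg (Nat.cast_nonneg _) _

theorem cmp {Y X : Type} (f : Y → X) (hf : Function.Injective f) (v : X → ℕ) {s : ℝ}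
    (h : Summable fun x => ((v x + 1 : ℕ) : ℝ) ^ (-s)) : (Summable fun y => ((v (f y) + 1 : ℕ) : ℝ) ^ (-s)) ∧
      ∑' y, ((v (f y) + 1 : ℕ) : ℝ) ^ (-s) ≤ ∑' x, ((v x + 1 : ℕ) : ℝ) ^ (-s) :=
  ⟨(h.comp_injective hf :), tsum_comp_le_tsum_of_inj h (nn v s) hf⟩

theorem nat_summ {s : ℝ} (hs : 1 < s) : Summable fun n : ℕ => ((n + 1 : ℕ) : ℝ) ^ (-s) := by
  have h2 : Summable fun n : ℕ => ((n : ℕ) : ℝ) ^ (-s) := Real.summable_nat_rpow.2 (by linarith)
  exact (summable_nat_add_iff 1).2 h2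

/-- a subset of a union of two sets -/
theorem sub_union {U D1 D2 : Set ℕ} (hU : U ⊆ D1 ∪ D2) {s : ℝ} (hs : 1 < s) :
    ∑' n : U, (((n : ℕ) + 1 : ℕ) : ℝ) ^ (-s) ≤
      ∑' n : D1, (((n : ℕ) + 1 : ℕ) : ℝ) ^ (-s) + ∑' n : D2, (((n : ℕ) + 1 : ℕ) : ℝ) ^ (-s) := by
  have hS := nat_summ hs
  have e (W : Set ℕ) : ∑' n : W, (((n : ℕ) + 1 : ℕ) : ℝ) ^ (-s) =
      ∑' n, Set.indicator W (fun n : ℕ => ((n + 1 : ℕ) : ℝ) ^ (-s)) n :=
    _root_.tsum_subtype W (fun n : ℕ => ((n + 1 : ℕ) : ℝ) ^ (-s))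
  rw [e, e, e, ← Summable.tsum_add (hS.indicator _) (hS.indicator _)]
  refine (hS.indicator _).tsum_le_tsum (fun n => ?_) ((hS.indicator _).add (hS.indicator _))
  have h0 : ∀ n : ℕ, 0 ≤ ((n + 1 : ℕ) : ℝ) ^ (-s) := fun n => nn (fun n : ℕ => n) s n
  have i1 : 0 ≤ Set.indicator D1 (fun n : ℕ => ((n + 1 : ℕ) : ℝ) ^ (-s)) n :=
    Set.indicator_nonneg (fun n _ => h0 n) n
  have i2 : 0 ≤ Set.indicator D2 (fun n : ℕ => ((n + 1 : ℕ) : ℝ) ^ (-s)) n :=
    Set.indicator_nonneg (fun n _ => h0 n) n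
  by_cases hn : n ∈ U
  · rcases hU hn with h | h
    · rw [Set.indicator_of_mem hn]
      rw [Set.indicator_of_mem h] at i1 ⊢
      linarith
    · rw [Set.indicator_of_mem hn]
      rw [Set.indicator_of_mem h] at i2 ⊢
      linarith
  · rw [Set.indicator_of_notMem hn]
    linarith

theorem comp_sumE (N : ℕ) : ∃ Z : ℂ → ℂ, AnalyticAt ℂ Z 1 ∧ ∀ (T : Set ℕ) (s : ℝ), 1 < s →
    ((s : ℂ) - 1) * DirN T s = Z s - ((s : ℂ) - 1) *
      ((PS s + ((∑' n : ↥({n | Composite n ∧ N < n} \ T), (((n : ℕ) + 1 : ℕ) : ℝ) ^ (-s)) -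
        ∑' n : ↥(T \ {n | Composite n ∧ N < n}), (((n : ℕ) + 1 : ℕ) : ℝ) ^ (-s)) : ℝ) : ℂ) := by
  obtain ⟨Z, hZ, hs⟩ := comp_sumN N
  refine ⟨Z, hZ, ?_⟩
  intro T s h3
  have hsumm : Summable fun n : ℕ => ((n + 1 : ℕ) : ℂ) ^ (-(s : ℂ)) :=
    summable_cpow (fun n : ℕ => n) (fun _ _ h => h) h3
  have e (U : Set ℕ) : ∑' n : U, (((n : ℕ) + 1 : ℕ) : ℂ) ^ (-(s : ℂ)) =
      ∑' n, Set.indicator U (fun n : ℕ => ((n + 1 : ℕ) : ℂ) ^ (-(s : ℂ))) n :=
    _root_.tsum_subtype U (fun n : ℕ => ((n + 1 : ℕ) : ℂ) ^ (-(s : ℂ)))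
  have e4 : DirN T s + ∑' n : ↥({n | Composite n ∧ N < n} \ T), (((n : ℕ) + 1 : ℕ) : ℂ) ^ (-(s : ℂ)) =
      DirN {n | Composite n ∧ N < n} s +
        ∑' n : ↥(T \ {n | Composite n ∧ N < n}), (((n : ℕ) + 1 : ℕ) : ℂ) ^ (-(s : ℂ)) := by
    unfold DirN
    rw [e, e, e, e, ← Summable.tsum_add (hsumm.indicator _) (hsumm.indicator _),
      ← Summable.tsum_add (hsumm.indicator _) (hsumm.indicator _)]
    refine tsum_congr fun n => ?_
    by_cases ha : n ∈ T <;> by_cases hb : n ∈ {n | Composite n ∧ N < n}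
    · rw [Set.indicator_of_mem ha, Set.indicator_of_mem hb, Set.indicator_of_notMem (fun h => h.2 ha),
        Set.indicator_of_notMem (fun h => h.2 hb)]
    · rw [Set.indicator_of_mem ha, Set.indicator_of_notMem hb, Set.indicator_of_notMem (fun h => h.2 ha),
        Set.indicator_of_mem (show n ∈ T \ {n | Composite n ∧ N < n} from ⟨ha, hb⟩), add_comm]
    · rw [Set.indicator_of_notMem ha, Set.indicator_of_mem hb,
        Set.indicator_of_mem (show n ∈ {n | Composite n ∧ N < n} \ T from ⟨hb, ha⟩),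
        Set.indicator_of_notMem (fun h => h.2 hb), add_comm]
    · rw [Set.indicator_of_notMem ha, Set.indicator_of_notMem hb, Set.indicator_of_notMem (fun h => hb h.1),
        Set.indicator_of_notMem (fun h => ha h.1)]
  have e5 := hs s h3
  rw [cast_tsum (fun n : ↥({n | Composite n ∧ N < n} \ T) => (n : ℕ)) s,
    cast_tsum (fun n : ↥(T \ {n | Composite n ∧ N < n}) => (n : ℕ)) s] at e4
  rw [Complex.ofReal_add, Complex.ofReal_sub]
  linear_combination e5 + ((s : ℂ) - 1) * e4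

private theorem mul_ps (b C : ℝ) : Tendsto (fun s : ℝ => (s - 1) * (b * PS s + C)) (𝓝[>] 1) (𝓝 0) := by
  have h1 : Tendsto (fun s : ℝ => (s - 1) * C) (𝓝[>] 1) (𝓝 0) := by
    have h2 : Continuous fun s : ℝ => (s - 1) * C := by fun_prop
    exact (h2.tendsto' 1 0 (by simp)).mono_left nhdsWithin_le_nhds
  have h2 := (prime_facts.2.const_mul b).add h1
  rw [mul_zero, add_zero] at h2
  exact h2.congr fun s => by ring

/-- functions between two multiples of the series of the primes -/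
theorem pert (P : ℝ → ℝ) (a b C : ℝ) (ha : 0 < a) (h1 : ∀ s, 1 < s → a * PS s - C ≤ P s)
    (h2 : ∀ s, 1 < s → P s ≤ b * PS s + C) :
    Tendsto P (𝓝[>] 1) atTop ∧ Tendsto (fun s : ℝ => (s - 1) * P s) (𝓝[>] 1) (𝓝 0) := by
  constructor
  · have h3 : Tendsto (fun s => a * PS s - C) (𝓝[>] 1) atTop :=
      tendsto_atTop_add_const_right _ (-C) (prime_facts.1.const_mul_atTop ha)
    refine tendsto_atTop_mono' _ ?_ h3
    filter_upwards [self_mem_nhdsWithin] with s hs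
    exact h1 s hs
  · refine tendsto_of_tendsto_of_tendsto_of_le_of_le' (mul_ps a (-C)) (mul_ps b C) ?_ ?_
    · filter_upwards [self_mem_nhdsWithin] with s hs
      have hs' : (1 : ℝ) < s := hs
      exact mul_le_mul_of_nonneg_left (by linarith [h1 s hs']) (by linarith)
    · filter_upwards [self_mem_nhdsWithin] with s hs
      have hs' : (1 : ℝ) < s := hs
      exact mul_le_mul_of_nonneg_left (by linarith [h2 s hs']) (by linarith)

/-- the series of an arithmetic progression is not bounded by a multiple of the series of the primes -/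
theorem ap_notE {a κ : ℕ} (c C : ℝ)
    (h : ∀ s : ℝ, 1 < s → (Summable fun j : ℕ => ((a + κ * j + 1 : ℕ) : ℝ) ^ (-s)) ∧
      ∑' j : ℕ, ((a + κ * j + 1 : ℕ) : ℝ) ^ (-s) ≤ c * PS s + C) : False := by
  have hA : (0 : ℝ) < ((a + κ + 1 : ℕ) : ℝ) := by exact_mod_cast Nat.succ_pos _
  have h1 : ∀ s : ℝ, 1 < s → ((a + κ + 1 : ℕ) : ℝ) ^ (-s) * ((s - 1) * ∑' n : ℕ, 1 / (n : ℝ) ^ s) ≤
      (s - 1) * (c * PS s + C) := by
    intro s hs
    have e1 : ∑' n : ℕ, 1 / (n : ℝ) ^ s = ∑' j : ℕ, ((j + 1 : ℕ) : ℝ) ^ (-s) := by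
      have h2 : Summable fun n : ℕ => ((n : ℕ) : ℝ) ^ (-s) := Real.summable_nat_rpow.2 (by linarith)
      have h3 : (fun n : ℕ => 1 / (n : ℝ) ^ s) = fun n : ℕ => (n : ℝ) ^ (-s) := by
        funext n
        rw [Real.rpow_neg (Nat.cast_nonneg _), one_div]
      rw [h3, h2.tsum_eq_zero_add, Nat.cast_zero, Real.zero_rpow (by linarith), zero_add]
    have e2 : ((a + κ + 1 : ℕ) : ℝ) ^ (-s) * ∑' j : ℕ, ((j + 1 : ℕ) : ℝ) ^ (-s) ≤
        ∑' j : ℕ, ((a + κ * j + 1 : ℕ) : ℝ) ^ (-s) := by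
      rw [← tsum_mul_left]
      refine ((nat_summ hs).mul_left _).tsum_le_tsum (fun j => ?_) (h s hs).1
      rw [← Real.mul_rpow hA.le (Nat.cast_nonneg _)]
      refine Real.rpow_le_rpow_of_nonpos (by exact_mod_cast Nat.succ_pos _) ?_ (by linarith)
      rw [← Nat.cast_mul]
      refine Nat.cast_le.2 ?_
      nlinarith [Nat.zero_le (a * j), Nat.zero_le (κ * j)]
    have h4 := mul_le_mul_of_nonneg_left (e2.trans (h s hs).2) (by linarith : (0 : ℝ) ≤ s - 1)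
    rw [e1]
    linarith
  have h2 : Tendsto (fun s : ℝ => ((a + κ + 1 : ℕ) : ℝ) ^ (-s)) (𝓝[>] 1) (𝓝 (((a + κ + 1 : ℕ) : ℝ) ^ (-(1 : ℝ)))) := by
    have hc : Continuous fun s : ℝ => ((a + κ + 1 : ℕ) : ℝ) ^ (-s) :=
      (Real.continuous_const_rpow hA.ne').comp continuous_neg
    exact (hc.tendsto 1).mono_left nhdsWithin_le_nhds
  have h3 := h2.mul tendsto_sub_mul_tsum_nat_rpow
  have h4 := le_of_tendsto_of_tendsto h3 (mul_ps c C) (by
    filter_upwards [self_mem_nhdsWithin] with s hs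
    exact h1 s hs)
  have h5 : 0 < ((a + κ + 1 : ℕ) : ℝ) ^ (-(1 : ℝ)) := Real.rpow_pos_of_pos hA _
  linarith

end Pool.Agent.Lib.UCR
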