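import Pool.Agent.Lib.UCV.Sdef
import Pool.Agent.Lib.UCW.Asm
import Pool.Agent.Lib.UCU.Rfn
import Pool.Agent.Lib.UCT.Gr
import Pool.Agent.Lib.UCS.SysH
import Pool.Agent.Lib.UCR.Cmp

/-!
# UCR: differences and derivations of ambiguous words against the primes
-/

set_option autoImplicit false

open Filter Topology Finset

namespace Pool.Agent.Lib.UCR

open Pool.Agent.Lib.UCX (Grammar Sys Prd Item Run Lang Composite DirN PS)
open Pool.Agent.Lib.UCW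
open Pool.Agent.Lib.UCV (Acc AmbDer)
open Pool.Agent.Lib.UCU (tot Good refn refn_code refn_ref)
open Pool.Agent.Lib.UCT (OneKind sysOf emOf sys_b acc_code vals1 Un)
open Pool.Agent.Lib.UCS (cast_tsum sysH)

private theorem lder_red {G : Grammar} {d : List (List (Item G))} {n : ℕ} (h : LDer (red G) d n) :
    LDer G d n := ⟨h.1, h.2.1, h.2.2.imp fun _ _ h' => red_step h'⟩

private theorem red_oneKind {G : Grammar} {P : Set G.V} (h : OneKind G P) : OneKind (red G) P :=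
  ⟨h.ctx, h.push, fun A f α h' => h.pop A f α h'.1⟩

theorem mainT (G : Grammar) (P : Set G.V) (hk : OneKind G P) (N : ℕ) (c C : ℝ) (hc : c < 1)
    (H : ∀ s : ℝ, 1 < s → (Summable fun x : AmbDer G N => ((x.1.1 + 1 : ℕ) : ℝ) ^ (-s)) ∧
      ∑' n : ↥(symmDiff (Gen G) {n | Composite n}), (((n : ℕ) + 1 : ℕ) : ℝ) ^ (-s) +
        ∑' x : AmbDer G N, ((x.1.1 + 1 : ℕ) : ℝ) ^ (-s) ≤ c * PS s + C) : False := by
  have hlang : ∀ n, (n ∈ Lang (red G) ↔ n ∈ Gen G) := by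
    intro n
    constructor
    · rintro ⟨l, hl⟩
      obtain ⟨d, hd⟩ := tr_exists hl 0
      exact ⟨d, lder_red (lder_of_tr hd)⟩
    · intro h
      rw [gen_eq] at h
      obtain ⟨l, hl⟩ := h
      exact run_red hl
  have hun : ∀ n, n ∉ Amb G → Un (red G) [some ((red G).start, [])] n := by
    intro n hn l l' h h'
    by_contra hne
    obtain ⟨d, hd⟩ := tr_exists h 0
    obtain ⟨d', hd'⟩ := tr_exists h' 0
    refine hn ⟨d, d', ?_, lder_red (lder_of_tr hd), lder_red (lder_of_tr hd')⟩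
    rintro rfl
    exact hne (tr_inj (red_sep G) hd hd')
  have hk' := red_oneKind hk
  obtain ⟨γ, hγ, hγi⟩ := acc_code (red G) P
  obtain ⟨S, em, Zs, hRef, π, hπ, hπi, hπs⟩ : ∃ (S : Sys) (em : S.E → ℕ) (Zs : Set S.Q), Pool.Agent.Lib.UCU.Ref S Zs ∧
      ∃ (π : List S.E → List (sysOf (red G) P).E),
      (∀ l ∈ Acc S, π l ∈ Acc (sysOf (red G) P) ∧
        tot S em l = tot (sysOf (red G) P) (emOf (red G) P) (π l) ∧
        N < tot (sysOf (red G) P) (emOf (red G) P) (π l)) ∧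
      (∀ l ∈ Acc S, ∀ l' ∈ Acc S, π l = π l' → l = l') ∧
      ∀ l ∈ Acc (sysOf (red G) P), N < tot (sysOf (red G) P) (emOf (red G) P) l →
        ∃ l' ∈ Acc S, π l' = l :=
    ⟨refn (sysOf (red G) P) (emOf (red G) P) N, _, _, refn_ref _ _ N (sys_b (red G) P), refn_code _ _ N⟩
  -- the derivation of an accepted path
  have hex : ∀ l : Acc S, ∃ d, Tr (red G) 0 (γ (π (l : List S.E))) [some ((red G).start, [])]
      (tot (sysOf (red G) P) (emOf (red G) P) (π (l : List S.E))) d := fun l =>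
    tr_exists (hγ _ (hπ _ l.2).1) 0
  choose Ψ hΨ using hex
  have hΨi : Function.Injective Ψ := by
    intro l l' h
    have h1 := hΨ l
    have h2 := hΨ l'
    rw [h] at h1
    have h3 := tr_inj (red_sep G) h1 h2
    have h4 := hγi _ (hπ _ l.2).1 _ (hπ _ l'.2).1 h3
    exact Subtype.ext (hπi _ l.2 _ l'.2 h4)
  obtain ⟨v, hv⟩ : ∃ v : Acc S → ℕ, v = fun l : Acc S => tot S em (l : List S.E) := ⟨_, rfl⟩
  have hvl : ∀ l, v l = tot S em (l : List S.E) := fun l => by rw [hv]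
  have hvN : ∀ l, N < v l := fun l => by
    rw [hvl, (hπ _ l.2).2.1]
    exact (hπ _ l.2).2.2
  have hder : ∀ l, LDer G (Ψ l) (v l) := fun l => by
    rw [hvl, (hπ _ l.2).2.1]
    exact lder_red (lder_of_tr (hΨ l))
  obtain ⟨T2, hT2⟩ : ∃ T2 : Set (Acc S), T2 = {l | v l ∈ Amb G} := ⟨_, rfl⟩
  have hT2m : ∀ l, l ∈ T2 ↔ v l ∈ Amb G := fun l => by rw [hT2]; exact Iff.rfl
  -- accepted paths whose value is ambiguous
  have hsD : ∀ s : ℝ, 0 ≤ ∑' n : ↥(symmDiff (Gen G) {n | Composite n}), (((n : ℕ) + 1 : ℕ) : ℝ) ^ (-s) := fun s =>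
    tsum_nonneg fun n => Real.rpow_nonneg (Nat.cast_nonneg _) _
  have hs2 : ∀ s : ℝ, 1 < s → (Summable fun l : T2 => ((v (l : Acc S) + 1 : ℕ) : ℝ) ^ (-s)) ∧
      ∑' l : T2, ((v (l : Acc S) + 1 : ℕ) : ℝ) ^ (-s) ≤ ∑' x : AmbDer G N, ((x.1.1 + 1 : ℕ) : ℝ) ^ (-s) := by
    intro s hs
    let ι : T2 → AmbDer G N := fun l => ⟨(v (l : Acc S), Ψ (l : Acc S)), hvN _, (hT2m _).1 l.2, hder _⟩
    have hι : Function.Injective ι := fun a b hab =>
      Subtype.ext (hΨi (congrArg (fun z : AmbDer G N => z.1.2) hab))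
    exact cmp ι hι (fun x : AmbDer G N => x.1.1) (H s hs).1
  -- on the others the value is injective
  have hinj : Set.InjOn v T2ᶜ := by
    intro l hl l' hl' h
    by_contra hne
    refine hl ((hT2m l).2 ⟨Ψ l, Ψ l', fun h' => hne (hΨi h'), hder l, ?_⟩)
    rw [h]
    exact hder l'
  have h1c : ∀ s : ℝ, 1 < s → Summable fun l : ↥(T2ᶜ) => ((v (l : Acc S) + 1 : ℕ) : ℝ) ^ (-s) := by
    intro s hs
    have h2 : Summable fun n : ℕ => ((n : ℕ) : ℝ) ^ (-s) := Real.summable_nat_rpow.2 (by linarith)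
    have h3 := (summable_nat_add_iff 1).2 h2
    exact (h3.comp_injective (i := fun l : ↥(T2ᶜ) => v (l : Acc S))
      (fun a b hab => Subtype.ext (hinj a.2 b.2 hab)) :)
  have h1t : ∀ s : ℝ, 1 < s → Summable fun l : T2 => ((v (l : Acc S) + 1 : ℕ) : ℝ) ^ (-s) := fun s hs =>
    (hs2 s hs).1
  have h1v : ∀ s : ℝ, 1 < s → Summable fun l : Acc S => ((v l + 1 : ℕ) : ℝ) ^ (-s) := fun s hs =>
    summable_subtype_and_compl.1 ⟨h1t s hs, h1c s hs⟩
  have h1 : ∀ s : ℝ, 1 < s → Summable fun l : Acc S => ((tot S em (l : List S.E) + 1 : ℕ) : ℝ) ^ (-s) := by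
    intro s hs
    have h2 := h1v s hs
    simp only [hvl] at h2
    exact h2
  have hgood : Good S em := by
    refine ⟨h1, ?_⟩
    intro a κ hκ
    by_contra hcon
    push Not at hcon
    choose L hL1 L' hL2 h3 h4 h5 using hcon
    have hmem : ∀ j, (⟨L j, hL1 j⟩ : Acc S) ∈ T2 := by
      intro j
      refine (hT2m _).2 ⟨Ψ ⟨L j, hL1 j⟩, Ψ ⟨L' j, hL2 j⟩, ?_, hder _, ?_⟩
      · intro h
        exact h5 j (congrArg Subtype.val (hΨi h))
      · have h6 : v ⟨L j, hL1 j⟩ = v ⟨L' j, hL2 j⟩ := by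
          rw [hvl, hvl]
          exact (h3 j).trans (h4 j).symm
        rw [h6]
        exact hder _
    have hvj : ∀ j, v ⟨L j, hL1 j⟩ = a + κ * j := fun j => by
      rw [hvl]
      exact h3 j
    let ι : ℕ → AmbDer G N := fun j => ⟨(a + κ * j, Ψ ⟨L j, hL1 j⟩), by
      have := hvN ⟨L j, hL1 j⟩
      rw [hvj] at this
      exact this, by
      have := (hT2m _).1 (hmem j)
      rw [hvj] at this
      exact this, by
      have := hder ⟨L j, hL1 j⟩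
      rw [hvj] at this
      exact this⟩
    have hι : Function.Injective ι := by
      intro i j hij
      have h8 : a + κ * i = a + κ * j := congrArg (fun z : AmbDer G N => z.1.1) hij
      exact Nat.eq_of_mul_eq_mul_left hκ (by omega)
    refine ap_notE (a := a) (κ := κ) c C fun s hs => ?_
    obtain ⟨h6, h7⟩ := cmp ι hι (fun x : AmbDer G N => x.1.1) (H s hs).1
    exact ⟨h6, h7.trans (by linarith [hsD s, (H s hs).2])⟩
  -- the series
  obtain ⟨Z, hZ, hZ'⟩ := comp_sumE N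
  obtain ⟨T, hT⟩ : ∃ T : Set ℕ, T = v '' T2ᶜ := ⟨_, rfl⟩
  have hsub1 : T \ {n | Composite n ∧ N < n} ⊆ symmDiff (Gen G) {n | Composite n} := by
    rintro n ⟨hn, hn'⟩
    rw [hT] at hn
    obtain ⟨l, hl, rfl⟩ := hn
    exact Or.inl ⟨⟨_, hder l⟩, fun hc => hn' ⟨hc, hvN l⟩⟩
  have hsub2 : {n | Composite n ∧ N < n} \ T ⊆ symmDiff (Gen G) {n | Composite n} ∪ {n | n ∈ Amb G ∧ N < n} := by
    rintro n ⟨⟨hcn, hN⟩, hnT⟩
    by_contra hn
    have hA : n ∉ Amb G := fun h => hn (Or.inr ⟨h, hN⟩)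
    have hG : n ∈ Gen G := by
      by_contra h
      exact hn (Or.inl (Or.inr ⟨hcn, h⟩))
    obtain ⟨l, hl, hln⟩ := vals1 (red G) P hk' (hun n hA) ((hlang n).2 hG)
    obtain ⟨l', hl', hl''⟩ := hπs l hl (by rw [hln]; exact hN)
    apply hnT
    rw [hT]
    refine ⟨⟨l', hl'⟩, ?_, ?_⟩
    · intro h
      apply hA
      have h2 := (hT2m _).1 h
      rw [hvl, (hπ _ hl').2.1, hl'', hln] at h2
      exact h2
    · rw [hvl, (hπ _ hl').2.1, hl'', hln]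
  have hAmb : ∀ s : ℝ, 1 < s → ∑' n : ↥{n | n ∈ Amb G ∧ N < n}, (((n : ℕ) + 1 : ℕ) : ℝ) ^ (-s) ≤
      ∑' x : AmbDer G N, ((x.1.1 + 1 : ℕ) : ℝ) ^ (-s) := by
    intro s hs
    have hch : ∀ n : ↥{n | n ∈ Amb G ∧ N < n}, ∃ d, LDer G d (n : ℕ) := by
      rintro ⟨n, ⟨d, d', -, hd, -⟩, -⟩
      exact ⟨d, hd⟩
    choose d hd using hch
    let ι : ↥{n | n ∈ Amb G ∧ N < n} → AmbDer G N := fun n => ⟨((n : ℕ), d n), n.2.2, n.2.1, hd n⟩
    have hι : Function.Injective ι := fun a b hab =>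
      Subtype.ext (congrArg (fun z : AmbDer G N => z.1.1) hab)
    exact (cmp ι hι (fun x : AmbDer G N => x.1.1) (H s hs).1).2
  have hU1 : ∀ s : ℝ, 1 < s → ∑' n : ↥(T \ {n | Composite n ∧ N < n}), (((n : ℕ) + 1 : ℕ) : ℝ) ^ (-s) ≤
      ∑' n : ↥(symmDiff (Gen G) {n | Composite n}), (((n : ℕ) + 1 : ℕ) : ℝ) ^ (-s) := by
    intro s hs
    exact (cmp (Set.inclusion hsub1) (Set.inclusion_injective hsub1)
      (fun n : ↥(symmDiff (Gen G) {n | Composite n}) => (n : ℕ))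
      ((nat_summ hs).comp_injective Subtype.val_injective :)).2
  have hU2 : ∀ s : ℝ, 1 < s → ∑' n : ↥({n | Composite n ∧ N < n} \ T), (((n : ℕ) + 1 : ℕ) : ℝ) ^ (-s) ≤
      ∑' n : ↥(symmDiff (Gen G) {n | Composite n}), (((n : ℕ) + 1 : ℕ) : ℝ) ^ (-s) +
        ∑' x : AmbDer G N, ((x.1.1 + 1 : ℕ) : ℝ) ^ (-s) := fun s hs =>
    (sub_union hsub2 hs).trans (by linarith [hAmb s hs])
  have hn1 : ∀ s : ℝ, 0 ≤ ∑' n : ↥(T \ {n | Composite n ∧ N < n}), (((n : ℕ) + 1 : ℕ) : ℝ) ^ (-s) := fun s =>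
    tsum_nonneg fun n => Real.rpow_nonneg (Nat.cast_nonneg _) _
  have hn2 : ∀ s : ℝ, 0 ≤ ∑' n : ↥({n | Composite n ∧ N < n} \ T), (((n : ℕ) + 1 : ℕ) : ℝ) ^ (-s) := fun s =>
    tsum_nonneg fun n => Real.rpow_nonneg (Nat.cast_nonneg _) _
  have hn3 : ∀ s : ℝ, 0 ≤ ∑' l : T2, ((v (l : Acc S) + 1 : ℕ) : ℝ) ^ (-s) := fun s =>
    tsum_nonneg fun n => Real.rpow_nonneg (Nat.cast_nonneg _) _
  refine sysH S em hRef hgood (fun s => PS s + (((∑' n : ↥({n | Composite n ∧ N < n} \ T), (((n : ℕ) + 1 : ℕ) : ℝ) ^ (-s)) -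
      ∑' n : ↥(T \ {n | Composite n ∧ N < n}), (((n : ℕ) + 1 : ℕ) : ℝ) ^ (-s)) -
      ∑' l : T2, ((v (l : Acc S) + 1 : ℕ) : ℝ) ^ (-s)))
    (pert _ (1 - c) (1 + c) C (by linarith) (fun s hs => ?_) (fun s hs => ?_)) ⟨Z, hZ, ?_⟩
  · linarith [hU1 s hs, (hs2 s hs).2, (H s hs).2, hn2 s]
  · linarith [hU2 s hs, (H s hs).2, hn1 s, hn3 s]
  intro s hs
  have hc : ∀ (Y : Type) (u : Y → ℕ), (Summable fun l : Y => ((u l + 1 : ℕ) : ℝ) ^ (-s)) →
      Summable fun l : Y => ((u l + 1 : ℕ) : ℂ) ^ (-(s : ℂ)) := by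
    intro Y u h
    refine Summable.of_norm (h.congr fun x => ?_)
    rw [Complex.norm_natCast_cpow_of_pos (Nat.succ_pos _)]
    simp
  have e1 : ∑' l : Acc S, ((v l + 1 : ℕ) : ℂ) ^ (-(s : ℂ)) =
      ∑' l : T2, ((v (l : Acc S) + 1 : ℕ) : ℂ) ^ (-(s : ℂ)) +
        ∑' l : ↥(T2ᶜ), ((v (l : Acc S) + 1 : ℕ) : ℂ) ^ (-(s : ℂ)) :=
    (Summable.tsum_add_tsum_compl (f := fun l : Acc S => ((v l + 1 : ℕ) : ℂ) ^ (-(s : ℂ)))
      (hc _ _ (h1t s hs)) (hc _ _ (h1c s hs))).symm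
  have e2 : DirN T s = ∑' l : ↥(T2ᶜ), ((v (l : Acc S) + 1 : ℕ) : ℂ) ^ (-(s : ℂ)) := by
    rw [hT]
    exact tsum_image (fun n : ℕ => ((n + 1 : ℕ) : ℂ) ^ (-(s : ℂ))) hinj
  have e3 := hZ' T s hs
  rw [e2] at e3
  simp only [← hvl]
  rw [e1, cast_tsum (fun l : T2 => v (l : Acc S)) s]
  rw [Complex.ofReal_add] at e3
  rw [Complex.ofReal_add, Complex.ofReal_sub]
  linear_combination e3

theorem mainU (G : Grammar) (P : Set G.V) (hk : OneKind G P) (N : ℕ) (c C : ℝ) (hc : c < 1) :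
    ¬ ∀ s : ℝ, 1 < s → (Summable fun x : AmbDer G N => ((x.1.1 : ℝ) + 1) ^ (-s)) ∧
      ∑' n : ↥(symmDiff (Gen G) {n | Composite n}), (((n : ℕ) : ℝ) + 1) ^ (-s) +
        ∑' x : AmbDer G N, ((x.1.1 : ℝ) + 1) ^ (-s) ≤ c * ∑' p : Nat.Primes, ((p : ℝ) + 1) ^ (-s) + C := by
  intro H
  refine mainT G P hk N c C hc fun s hs => ?_
  have h := H s hs
  simp only [Nat.cast_add, Nat.cast_one]
  exact h

end Pool.Agent.Lib.UCR
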