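import Pool.Agent.Lib.UCW.Gdef
import Pool.Agent.Lib.UCT.Gdef

/-!
# UCR: an unambiguous grammar of the class with the language `0*`
-/

set_option autoImplicit false

namespace Pool.Agent.Lib.UCR

open Pool.Agent.Lib.UCX hiding OneKind
open Pool.Agent.Lib.UCW
open Pool.Agent.Lib.UCT (OneKind)

/-- the grammar `S → 0S`, `S →` (empty word) -/
def G1 : Grammar where
  V := Unit
  I := Unit
  finV := inferInstance
  finI := inferInstance
  start := ()
  ctx := {((), []), ((), [Sym.zero, Sym.var ()])}
  push := ∅
  pop := ∅
  finCtx := Set.toFinite _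
  finPush := Set.finite_empty
  finPop := Set.finite_empty

private def fo (k : ℕ) : List (Item G1) := List.replicate k none ++ [some ((), [])]

private def can : ℕ → ℕ → List (List (Item G1))
  | k, 0 => [fo k, List.replicate k none]
  | k, m + 1 => fo k :: can (k + 1) m

private theorem rep_split {α : Type} (a b : α) (t : List (Option α)) : ∀ (k j : ℕ),
    List.replicate k none ++ [some a] = List.replicate j none ++ some b :: t → k = j ∧ a = b ∧ t = []
  | 0, 0, h => by
    rw [List.replicate_zero, List.nil_append, List.nil_append, List.cons.injEq] at h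
    exact ⟨rfl, Option.some.inj h.1, h.2.symm⟩
  | 0, j + 1, h => by simp [List.replicate_succ] at h
  | k + 1, 0, h => by simp [List.replicate_succ] at h
  | k + 1, j + 1, h => by
    rw [List.replicate_succ, List.replicate_succ, List.cons_append, List.cons_append, List.cons.injEq] at h
    obtain ⟨h1, h2, h3⟩ := rep_split a b t k j h.2
    exact ⟨by omega, h2, h3⟩

private theorem no_step (k : ℕ) (y : List (Item G1)) (h : Step G1 (List.replicate k none) y) : False := by
  obtain ⟨j, A, σ, β, w, h1, -⟩ := h
  have h2 : some (A, σ) ∈ (List.replicate k none : List (Item G1)) := by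
    rw [h1]
    simp
  have h3 := List.eq_of_mem_replicate h2
  exact absurd h3 (by simp)

private theorem fo_ne (k n : ℕ) (h : fo k = List.replicate n none) : False := by
  have h2 : (some ((), []) : Item G1) ∈ (List.replicate n none : List (Item G1)) := by
    rw [← h]
    exact List.mem_append_right _ (List.mem_singleton.2 rfl)
  have h3 := List.eq_of_mem_replicate h2
  exact absurd h3 (by simp)

private theorem fo_succ (k : ℕ) : fo (k + 1) =
    (List.replicate k (none : Item G1) ++ [(none : Item G1), (some ((), []) : Item G1)] : List (Item G1)) := by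
  show (List.replicate (k + 1) (none : Item G1) ++ [(some ((), []) : Item G1)] : List (Item G1)) = _
  rw [List.replicate_succ', List.append_assoc]
  rfl

private theorem step_fo {k : ℕ} {y : List (Item G1)} (h : Step G1 (fo k) y) :
    y = List.replicate k none ∨ y = fo (k + 1) := by
  obtain ⟨j, A, σ, β, w, h1, h2, h3⟩ := h
  obtain ⟨rfl, h4, rfl⟩ := rep_split _ _ _ _ _ h1
  obtain ⟨rfl, rfl⟩ := Prod.mk.inj h4
  rcases h3 with ⟨α, hα, rfl⟩ | ⟨B, f, hf, -⟩ | ⟨f, τ, α, hσ, hf, -⟩
  · rcases hα with hα | hα
    · left
      obtain ⟨-, rfl⟩ := Prod.mk.inj hα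
      exact h2.trans (List.append_nil (List.replicate k (none : Item G1)))
    · right
      obtain ⟨-, rfl⟩ := Prod.mk.inj (Set.mem_singleton_iff.1 hα)
      exact h2.trans (fo_succ k).symm
  · exact absurd hf (Set.notMem_empty _)
  · exact absurd hf (Set.notMem_empty _)

private theorem step0 (k : ℕ) : Step G1 (fo k) (List.replicate k none) :=
  ⟨k, (), [], [], [], rfl, by simp, Or.inl ⟨[], Or.inl rfl, rfl⟩⟩

private theorem step1 (k : ℕ) : Step G1 (fo k) (fo (k + 1)) :=
  ⟨k, (), [], [none, some ((), [])], [], rfl, fo_succ k, Or.inl ⟨[Sym.zero, Sym.var ()], Or.inr rfl, rfl⟩⟩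

private theorem chain_can : ∀ (d : List (List (Item G1))) (k n : ℕ), d.head? = some (fo k) →
    d.getLast? = some (List.replicate n none) → d.IsChain (Step G1) → ∃ m, n = k + m ∧ d = can k m
  | [], k, n, h1, _, _ => by simp at h1
  | [x], k, n, h1, h2, _ => by
    rw [List.head?_cons, Option.some.injEq] at h1
    rw [List.getLast?_singleton, Option.some.injEq] at h2
    exact (fo_ne k n (h1.symm.trans h2)).elim
  | [x, y], k, n, h1, h2, h3 => by
    rw [List.head?_cons, Option.some.injEq] at h1
    rw [List.getLast?_cons_cons, List.getLast?_singleton, Option.some.injEq] at h2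
    rw [List.isChain_cons_cons] at h3
    rw [h1] at h3
    rcases step_fo h3.1 with h4 | h4
    · have h5 : k = n := by
        have h6 := congrArg List.length (h4.symm.trans h2)
        simpa using h6
      exact ⟨0, h5.symm, by rw [h1, h4]; rfl⟩
    · exact (fo_ne (k + 1) n (h4.symm.trans h2)).elim
  | x :: y :: z :: d, k, n, h1, h2, h3 => by
    rw [List.head?_cons, Option.some.injEq] at h1
    rw [List.getLast?_cons_cons] at h2
    rw [List.isChain_cons_cons] at h3
    rw [h1] at h3
    rcases step_fo h3.1 with h4 | h4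
    · have h5 := h3.2
      rw [List.isChain_cons_cons, h4] at h5
      exact (no_step k z h5.1).elim
    · obtain ⟨m, hm, hd⟩ := chain_can (y :: z :: d) (k + 1) n (by rw [List.head?_cons, h4]) h2 h3.2
      exact ⟨m + 1, by omega, by rw [h1, hd]; rfl⟩

private theorem can_ok : ∀ (m k : ℕ), (can k m).head? = some (fo k) ∧
    (can k m).getLast? = some (List.replicate (k + m) none) ∧ (can k m).IsChain (Step G1)
  | 0, k => by
    refine ⟨rfl, rfl, ?_⟩
    show List.IsChain (Step G1) [fo k, List.replicate k none]
    rw [List.isChain_cons_cons]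
    exact ⟨step0 k, List.isChain_singleton _⟩
  | m + 1, k => by
    obtain ⟨h1, h2, h3⟩ := can_ok m (k + 1)
    obtain ⟨l, hl⟩ : ∃ l, can (k + 1) m = fo (k + 1) :: l := by
      cases h : can (k + 1) m with
      | nil =>
        rw [h] at h1
        simp at h1
      | cons y l =>
        rw [h, List.head?_cons, Option.some.injEq] at h1
        exact ⟨l, by rw [h1]⟩
    refine ⟨rfl, ?_, ?_⟩
    · show (fo k :: can (k + 1) m).getLast? = _
      rw [hl] at h2 ⊢
      rw [List.getLast?_cons_cons, h2]
      congr 2
      omega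
    · show List.IsChain (Step G1) (fo k :: can (k + 1) m)
      rw [hl] at h3 ⊢
      rw [List.isChain_cons_cons]
      exact ⟨step1 k, h3⟩

theorem gen_G1 : Gen G1 = Set.univ := by
  refine Set.eq_univ_of_forall fun n => ?_
  obtain ⟨h1, h2, h3⟩ := can_ok n 0
  rw [zero_add] at h2
  exact ⟨can 0 n, h1, h2, h3⟩

theorem amb_G1 : Amb G1 = ∅ := by
  refine Set.eq_empty_of_forall_notMem fun n => ?_
  rintro ⟨d, d', hne, ⟨h1, h2, h3⟩, h1', h2', h3'⟩
  obtain ⟨m, hm, hd⟩ := chain_can d 0 n h1 h2 h3
  obtain ⟨m', hm', hd'⟩ := chain_can d' 0 n h1' h2' h3'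
  have h4 : m = m' := by omega
  exact hne (by rw [hd, hd', h4])

theorem oneKind_G1 : OneKind G1 Set.univ where
  ctx := by
    intro A α h
    refine Or.inr ⟨Set.mem_univ _, (), Set.mem_univ _, ?_⟩
    rcases h with h | h
    · obtain ⟨-, rfl⟩ := Prod.mk.inj h
      intro s hs
      exact absurd hs List.not_mem_nil
    · obtain ⟨-, rfl⟩ := Prod.mk.inj (Set.mem_singleton_iff.1 h)
      intro s hs
      rcases List.mem_cons.1 hs with h | h
      · exact Or.inl h
      · exact Or.inr (List.mem_singleton.1 h)
  push := fun A B f h => absurd h (Set.notMem_empty _)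
  pop := fun A f α h => absurd h (Set.notMem_empty _)

end Pool.Agent.Lib.UCR
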